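import Mathlib
import Pool.Agent.Q204.UF.Pair
import Pool.Agent.Q204.UF.IntH

set_option autoImplicit false

/-!
# ALL pairs `(X, D)`: the height of a sum of units is at most `C (N(D, x) + 1)`, or there is an
explicit curve `𝔾_m → X ∖ D` through the point

Let `X` be a closed subset of projective space given by forms of degrees `d 1, …, d q`, and `D` the
section of `X` by a hypersurface of degree `d 0`. According to Vojta's conjecture the points `x` of
`X ∖ D` over a number field satisfy `h(x) ≤ C (N_S(D, x) + 1)` outside a proper closed subset, if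
`(X, D)` is of log general type. Here `X`, `D` are ARBITRARY, `N` numbers `r` of summands and the
degrees are fixed, and the points are `x = ∑ u j V j`, `j < r`, where the `u j` are elements of the
division hull of a finitely generated group `Γ` of algebraic numbers, for instance `S`-units of any
number field. There are `E`, depending only on `n`, `d`, `r`, and `C`, depending in addition on
`Γ`, such that for ALL `X`, `D`, `V` and all these points

* `h(x) ≤ C (1 + h(X, D) + h(V) + h(b))`, where `b` is the value at `x` of the form defining `D`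
  divided by any element of the division hull, or
* there are exponents `l j ≤ E` such that `t ↦ ∑ t ^ l j u j V j` is a nonconstant map from the
  multiplicative group to `X ∖ D`. (Its value at `t = 1` is `x`.)

The number of points close to the group which are not on such curves is bounded by a polynomial in the
heights. Over `ℚ` the height of `b` is the counting function `N_S(D, x)`.
-/

namespace Pool.Agent.Results.MP_17a322_nt.GmCurvesOrBoundedHeight

open MvPolynomial
open scoped LinearAlgebra.Projectivization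
open Pool.Agent.Helper259.AbsHt

/-- The algebraic numbers. -/
abbrev Qbar : Type := AlgebraicClosure ℚ

/-- The indices of the coefficients of `q + 1` forms of degrees `d i` in `n + 1` variables. -/
abbrev Index (n : ℕ) {q : ℕ} (d : Fin (q + 1) → ℕ) : Type :=
  (i : Fin (q + 1)) × {α : Fin (n + 1) →₀ ℕ // α.degree = d i}

instance finite_index {n q : ℕ} (d : Fin (q + 1) → ℕ) : Finite (Index n d) :=
  Pool.Agent.Q51.UF.finite_CI d

/-- The height `h(1 : x)`: the absolute logarithmic height of the point with the projective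
coordinates `1` and `x i`. -/
noncomputable def height {ι : Type} [Finite ι] (x : ι → Qbar) : ℝ :=
  absLogHeight (fun o : Option ι => o.elim (1 : Qbar) x)

/-- The height of the pair: `X` is given by the forms `F i`, `i ≠ 0`, and `D` by the form `F 0`. -/
noncomputable def pairHeight {n q : ℕ} (d : Fin (q + 1) → ℕ)
    (F : Fin (q + 1) → MvPolynomial (Fin (n + 1)) Qbar) : ℝ :=
  height (fun x : Index n d => coeff x.2.1 (F x.1))

/-- The polynomials `p a` define a nonconstant map `t ↦ p (t)` from the multiplicative group to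
`X ∖ D`, where `X` is given by the forms `F i`, `i ≠ 0`, and `D` by the form `F 0`: the `F i (p)` are
zero and `F 0 (p)` is a nonzero monomial, and `p` is not proportional to the point `p (1)`. -/
def IsGmCurve {K : Type} [Field K] {n q : ℕ} (F : Fin (q + 1) → MvPolynomial (Fin (n + 1)) K)
    (p : Fin (n + 1) → Polynomial K) : Prop :=
  (∀ i, i ≠ 0 → aeval p (F i) = 0) ∧
    (∃ (k : ℕ) (c : K), c ≠ 0 ∧ aeval p (F 0) = Polynomial.C c * Polynomial.X ^ k) ∧
    ∃ a a' : Fin (n + 1), p a * Polynomial.C ((p a').eval 1) ≠ p a' * Polynomial.C ((p a).eval 1)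

/-- The points `x = ∑ u j s j V j` of `X ∖ D` such that `F 0 (x) = b (w s0) ^ d0` and there is no map
`p` of degree at most `E` from the multiplicative group to `X ∖ D` with `p (1) = x`, where the
`u j` and `w` have a power in `Γ` and the height of the point `(s0 : s 1 : … : s r)` is less than
`ε`. -/
def nearPoints {n q r : ℕ} (E d0 : ℕ) (b : Qbar)
    (F : Fin (q + 1) → MvPolynomial (Fin (n + 1)) Qbar) (Γ : Subgroup Qbarˣ) (ε : ℝ)
    (V : Fin r → Fin (n + 1) → Qbar) : Set (ℙ Qbar (Fin (n + 1) → Qbar)) :=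
  {P | ∃ (u : Fin r → Qbarˣ) (w : Qbarˣ) (s : Fin r → Qbar) (s0 : Qbar) (x : Fin (n + 1) → Qbar)
    (hx : x ≠ 0), (∀ j, ∃ m : ℕ, 0 < m ∧ u j ^ m ∈ Γ) ∧ (∃ m : ℕ, 0 < m ∧ w ^ m ∈ Γ) ∧
    absLogHeight (Fin.cons s0 s : Fin (r + 1) → Qbar) < ε ∧
    (x = fun a => ∑ j, (u j : Qbar) * s j * V j a) ∧ (∀ i, i ≠ 0 → aeval x (F i) = 0) ∧
    aeval x (F 0) = b * (w * s0) ^ d0 ∧ aeval x (F 0) ≠ 0 ∧
    (¬ ∃ p : Fin (n + 1) → Polynomial Qbar, (∀ a, (p a).natDegree ≤ E) ∧ IsGmCurve F p ∧
      ∀ a, (p a).eval 1 = x a) ∧ P = Projectivization.mk Qbar x hx}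

/-- Up to the sign, `u` is a product of powers, with integral exponents, of elements of `S`. -/
def UnitOf (S : Finset ℕ) (u : ℚ) : Prop := ∃ e : ℕ → ℤ, |u| = ∏ p ∈ S, (p : ℚ) ^ e p

theorem part1 (n : ℕ) {q : ℕ} (d : Fin (q + 1) → ℕ) (hd : 1 ≤ d 0) (r D : ℕ) (hD : 1 ≤ D)
    (hdD : ∀ i, d i ≤ D) (Γ : Subgroup Qbarˣ) (hΓ : Γ.FG) :
    ∃ C : ℝ, 0 ≤ C ∧ ∀ (F : Fin (q + 1) → MvPolynomial (Fin (n + 1)) Qbar)
      (V : Fin r → Fin (n + 1) → Qbar) (b : Qbar), (∀ i, (F i).IsHomogeneous (d i)) → b ≠ 0 →
      ∀ (u : Fin r → Qbarˣ) (w : Qbarˣ), (∀ j, ∃ m : ℕ, 0 < m ∧ u j ^ m ∈ Γ) →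
        (∃ m : ℕ, 0 < m ∧ w ^ m ∈ Γ) →
        (∀ i, i ≠ 0 → aeval (fun a => ∑ j, (u j : Qbar) * V j a) (F i) = 0) →
        aeval (fun a => ∑ j, (u j : Qbar) * V j a) (F 0) = w * b →
        absLogHeight (fun a => ∑ j, (u j : Qbar) * V j a) ≤
            C * (1 + pairHeight d F + height ![b] +
              height (fun p : Fin r × Fin (n + 1) => V p.1 p.2)) ∨
          ∃ l : Fin r → ℕ, (∀ j, l j ≤ Pool.Agent.Q204.UF.expB D (r + 1)) ∧
            IsGmCurve F (fun a => ∑ j, Polynomial.C ((u j : Qbar) * V j a) *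
              Polynomial.X ^ l j) := by
  obtain ⟨C, hC0, hC⟩ := Pool.Agent.Q204.UF.pair_heights (n := n) (r := r) d D hD hd hdD Γ hΓ
  refine ⟨C, hC0, fun F V b hF hb u w hu hw hx hG => ?_⟩
  by_contra hcon
  push Not at hcon
  obtain ⟨h1, h2⟩ := hcon
  exact absurd (hC F u w b V hF hu hw hb hx hG fun l hl hL => h2 l hl hL) (not_le.2 h1)

/-- **Main theorem.** For all degrees `d i` and all `r` there are `E` and `ε > 0` such that:

(1) for every finitely generated group `Γ` of algebraic numbers there are `C` and `e` such that for ALL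
forms `F i` of degrees `d i` with algebraic coefficients, all vectors `V j` of algebraic numbers and
all algebraic `b ≠ 0`: if `x = ∑ u j V j` is a point of `X` with `F 0 (x) = w b`, where the `u j` and
`w` have a power in `Γ`, then `h(x) ≤ C (1 + h(F) + h(b) + h(V))`, or there are `l j ≤ E` such that
`t ↦ ∑ t ^ l j u j V j` is a nonconstant map from the multiplicative group to `X ∖ D`; and there are
at most `C (1 + h(F) + h(b) + h(V)) ^ e` points in `nearPoints E (d 0) b F Γ ε V`;

(2) for every finite set `S` of positive integers there is `C` such that for ALL forms `F i` of degrees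
`d i` with integral coefficients of absolute value at most `M`: if `x` is a primitive integral point of
`X` off `D` with `F 0 (x) = w m`, `m` a positive integer, and `x = ∑ u j V j`, where `w` and the
`u j` are `S`-units and the `V j` integral vectors of size at most `H`, then
`max |x a| ≤ (3 M H m) ^ C`, or there are `l j ≤ E` such that `t ↦ ∑ t ^ l j u j V j` is a
nonconstant map from the multiplicative group to `X ∖ D`. -/
theorem result (n : ℕ) {q : ℕ} (d : Fin (q + 1) → ℕ) (hd : 1 ≤ d 0) (r : ℕ) :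
    ∃ (E : ℕ) (ε : ℝ), 0 < ε ∧
      (∀ Γ : Subgroup Qbarˣ, Γ.FG → ∃ (C : ℝ) (e : ℕ),
        ∀ (F : Fin (q + 1) → MvPolynomial (Fin (n + 1)) Qbar) (V : Fin r → Fin (n + 1) → Qbar)
          (b : Qbar), (∀ i, (F i).IsHomogeneous (d i)) → b ≠ 0 →
          (∀ (u : Fin r → Qbarˣ) (w : Qbarˣ), (∀ j, ∃ m : ℕ, 0 < m ∧ u j ^ m ∈ Γ) →
            (∃ m : ℕ, 0 < m ∧ w ^ m ∈ Γ) →
            (∀ i, i ≠ 0 → aeval (fun a => ∑ j, (u j : Qbar) * V j a) (F i) = 0) →
            aeval (fun a => ∑ j, (u j : Qbar) * V j a) (F 0) = w * b →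
            absLogHeight (fun a => ∑ j, (u j : Qbar) * V j a) ≤
                C * (1 + pairHeight d F + height ![b] +
                  height (fun p : Fin r × Fin (n + 1) => V p.1 p.2)) ∨
              ∃ l : Fin r → ℕ, (∀ j, l j ≤ E) ∧
                IsGmCurve F (fun a => ∑ j, Polynomial.C ((u j : Qbar) * V j a) *
                  Polynomial.X ^ l j)) ∧
          (nearPoints E (d 0) b F Γ ε V).Finite ∧
          ((nearPoints E (d 0) b F Γ ε V).ncard : ℝ) ≤
            C * (1 + pairHeight d F + height ![b] +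
              height (fun p : Fin r × Fin (n + 1) => V p.1 p.2)) ^ e) ∧
      ∀ S : Finset ℕ, (∀ p ∈ S, p ≠ 0) → ∃ C : ℕ,
        ∀ (F : Fin (q + 1) → MvPolynomial (Fin (n + 1)) ℤ) (M H m : ℕ) (w : ℚ) (u : Fin r → ℚ)
          (V : Fin r → Fin (n + 1) → ℤ) (x : Fin (n + 1) → ℤ),
          (∀ i, (F i).IsHomogeneous (d i)) → 1 ≤ M → (∀ i α, |coeff α (F i)| ≤ M) → 1 ≤ H →
          (∀ j a, |V j a| ≤ H) → (∀ j, UnitOf S (u j)) → UnitOf S w → 1 ≤ m →
          (∀ a, (x a : ℚ) = ∑ j, u j * V j a) → Finset.univ.gcd x = 1 →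
          (∀ i, i ≠ 0 → aeval x (F i) = 0) → (aeval x (F 0) : ℤ) = w * m →
          (∀ a, |x a| ≤ (3 * M * H * m) ^ C) ∨
            ∃ l : Fin r → ℕ, (∀ j, l j ≤ E) ∧
              IsGmCurve (fun i => map (algebraMap ℤ ℚ) (F i))
                (fun a => ∑ j, Polynomial.C (u j * V j a) * Polynomial.X ^ l j) := by
  classical
  obtain ⟨D, hD1, hdD⟩ : ∃ D : ℕ, 1 ≤ D ∧ ∀ i, d i ≤ D := ⟨∑ i, d i + 1, by omega, fun i =>
    (Finset.single_le_sum (f := d) (fun _ _ => Nat.zero_le _) (Finset.mem_univ i)).trans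
      (Nat.le_succ _)⟩
  refine ⟨Pool.Agent.Q204.UF.expB D (r + 1), Pool.Agent.Y215.SP.epsn ((D + 1) ^ (r + 1)) / D / 2,
    half_pos (div_pos (Pool.Agent.Y215.SP.epsn_pos _ (Nat.one_le_pow _ _ (by omega)))
      (by exact_mod_cast hD1)), fun Γ hΓ => ?_, fun S hS => ?_⟩
  · obtain ⟨C, hC0, hC⟩ := part1 n d hd r D hD1 hdD Γ hΓ
    obtain ⟨B, e, hB0, hB⟩ := Pool.Agent.Q204.UF.pair_near (n := n) (r := r) d D hD1 hd hdD Γ hΓ
    refine ⟨max C B, e, fun F V b hF hb => ?_⟩
    have hF0 : 0 ≤ pairHeight d F := absLogHeight_nonneg _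
    have hb0 : 0 ≤ height ![b] := absLogHeight_nonneg _
    have hV0 : 0 ≤ height (fun p : Fin r × Fin (n + 1) => V p.1 p.2) := absLogHeight_nonneg _
    refine ⟨fun u w hu hw hx hG => ?_, ?_⟩
    · refine (hC F V b hF hb u w hu hw hx hG).imp_left fun h => h.trans ?_
      exact mul_le_mul_of_nonneg_right (le_max_left _ _) (by linarith)
    · obtain ⟨hfin, hcard⟩ := hB F b V hF hb
      have hsub : nearPoints (Pool.Agent.Q204.UF.expB D (r + 1)) (d 0) b F Γ
          (Pool.Agent.Y215.SP.epsn ((D + 1) ^ (r + 1)) / D / 2) V ⊆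
          Pool.Agent.Q204.UF.nearPair (Pool.Agent.Q204.UF.expB D (r + 1)) (d 0) b F Γ
          (Pool.Agent.Y215.SP.epsn ((D + 1) ^ (r + 1)) / D / 2) V := by
        rintro P ⟨u, w, s, s0, x, hx0, hu, hw, hs, rfl, h1, h2, h3, h4, rfl⟩
        exact ⟨u, w, s, s0, hu, hw, hs, h1, h2, h3, h4, hx0, rfl⟩
      refine ⟨hfin.subset hsub, ?_⟩
      have h3 := Set.ncard_le_ncard hsub hfin
      refine le_trans (by exact_mod_cast h3) (hcard.trans ?_)
      exact mul_le_mul_of_nonneg_right (le_max_right _ _) (pow_nonneg (by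
        change 0 ≤ 1 + pairHeight d F + height ![b] +
          height (fun p : Fin r × Fin (n + 1) => V p.1 p.2)
        linarith) _)
  · obtain ⟨C, hC0, hC⟩ := part1 n d hd r D hD1 hdD (Pool.Agent.Q204.UF.grpS S)
      (Pool.Agent.Q204.UF.grpS_fg S)
    refine ⟨⌈C⌉₊, fun F M H m w u V x hF hM hFM hH hVH hu hw hm hx hgcd hz hG => ?_⟩
    have hMH : (1 : ℝ) ≤ 3 * M * H * m := by
      have h1 : (1 : ℝ) ≤ M := by exact_mod_cast hM
      have h2 : (1 : ℝ) ≤ H := by exact_mod_cast hH
      have h3 : (1 : ℝ) ≤ m := by exact_mod_cast hm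
      have h4 : (1 : ℝ) ≤ 3 * M * H := by nlinarith
      nlinarith
    have hunit : ∀ v : ℚ, UnitOf S v → ∃ v' : Qbarˣ, (v' : Qbar) = algebraMap ℚ Qbar v ∧
        ∃ k : ℕ, 0 < k ∧ v' ^ k ∈ Pool.Agent.Q204.UF.grpS S := by
      rintro v ⟨e, he⟩
      have h0 : v ≠ 0 := by
        intro h0
        rw [h0, abs_zero] at he
        exact (Finset.prod_ne_zero_iff.2 fun p hp => zpow_ne_zero _
          (Nat.cast_ne_zero.2 (hS p hp))) he.symm
      refine ⟨Units.mk0 (algebraMap ℚ Qbar v) ((map_ne_zero _).2 h0), rfl, 1, one_pos, ?_⟩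
      rw [pow_one]
      exact Pool.Agent.Q204.UF.mem_grpS S hS _ _ rfl e he
    choose u' hu' huΓ using fun j => hunit (u j) (hu j)
    obtain ⟨w', hw', hwΓ⟩ := hunit w hw
    obtain ⟨V', hV'⟩ : ∃ V' : Fin r → Fin (n + 1) → Qbar, V' = fun j a => ((V j a : ℤ) : Qbar) :=
      ⟨_, rfl⟩
    obtain ⟨F', hF'⟩ : ∃ F' : Fin (q + 1) → MvPolynomial (Fin (n + 1)) Qbar,
      F' = fun i => map (algebraMap ℤ Qbar) (F i) := ⟨_, rfl⟩
    have hpt : (fun a => ∑ j, (u' j : Qbar) * V' j a) = fun a => ((x a : ℤ) : Qbar) := by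
      funext a
      have h1 := congrArg (algebraMap ℚ Qbar) (hx a)
      rw [map_intCast, map_sum] at h1
      simp only [map_mul, map_intCast] at h1
      rw [h1]
      refine Finset.sum_congr rfl fun j _ => ?_
      rw [hu', hV']
    have hval : ∀ i, aeval (fun a => ((x a : ℤ) : Qbar)) (F' i) = ((aeval x (F i) : ℤ) : Qbar) := by
      intro i
      rw [hF', aeval_map_algebraMap]
      have h2 : (fun a => ((x a : ℤ) : Qbar)) = algebraMap ℤ Qbar ∘ x := by
        funext a
        simp
      rw [h2]
      exact aeval_algebraMap_apply Qbar x (F i)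
    have hm0 : ((m : ℕ) : Qbar) ≠ 0 := Nat.cast_ne_zero.2 (by omega)
    have hmain := hC F' V' (m : Qbar) (fun i => by
        rw [hF']
        exact (hF i).map _) hm0 u' w' huΓ hwΓ (fun i hi => by
        rw [hpt, hval, hz i hi, Int.cast_zero]) (by
        rw [hpt, hval, hw']
        have h1 := congrArg (algebraMap ℚ Qbar) hG
        rw [map_intCast, map_mul, map_natCast] at h1
        exact h1)
    rcases hmain with hmain | ⟨l, hl, hcur⟩
    · left
      rw [hpt] at hmain
      have hFh : pairHeight d F' ≤ Real.log M := by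
        have h1 := Pool.Agent.Q204.UF.hA_int_le (fun y : Index n d => coeff y.2.1 (F y.1)) M hM
          (fun y => hFM _ _)
        refine le_trans (le_of_eq ?_) h1
        unfold pairHeight height Pool.Agent.Y215.AF.hA
        refine congrArg absLogHeight (funext fun o => ?_)
        cases o with
        | none => rfl
        | some y =>
          show coeff y.2.1 (F' y.1) = ((coeff y.2.1 (F y.1) : ℤ) : Qbar)
          rw [hF', coeff_map]
          simp
      have hVh : height (fun p : Fin r × Fin (n + 1) => V' p.1 p.2) ≤ Real.log H := by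
        have h1 := Pool.Agent.Q204.UF.hA_int_le (fun p : Fin r × Fin (n + 1) => V p.1 p.2) H hH
          (fun p => hVH _ _)
        refine le_trans (le_of_eq ?_) h1
        unfold height Pool.Agent.Y215.AF.hA
        refine congrArg absLogHeight (funext fun o => ?_)
        cases o with
        | none => rfl
        | some p => rw [hV']
      have hbh : height ![(m : Qbar)] ≤ Real.log m := by
        have h1 := Pool.Agent.Q204.UF.hA_int_le (fun _ : Fin 1 => (m : ℤ)) m hm (fun _ => by simp)
        refine le_trans (le_of_eq ?_) h1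
        unfold height Pool.Agent.Y215.AF.hA
        refine congrArg absLogHeight (funext fun o => ?_)
        cases o with
        | none => rfl
        | some p =>
          fin_cases p
          simp
      have h3 : (1 : ℝ) ≤ Real.log 3 := by
        rw [Real.le_log_iff_exp_le (by norm_num)]
        exact Real.exp_one_lt_d9.le.trans (by norm_num)
      have h4 : Real.log (3 * M * H * m) = Real.log 3 + Real.log M + Real.log H + Real.log m := by
        have hM0 : (M : ℝ) ≠ 0 := by
          have : (0 : ℝ) < M := by exact_mod_cast hM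
          exact this.ne'
        have hH0 : (H : ℝ) ≠ 0 := by
          have : (0 : ℝ) < H := by exact_mod_cast hH
          exact this.ne'
        have hmr0 : (m : ℝ) ≠ 0 := by
          have : (0 : ℝ) < m := by exact_mod_cast hm
          exact this.ne'
        rw [Real.log_mul (mul_ne_zero (mul_ne_zero (by norm_num) hM0) hH0) hmr0,
          Real.log_mul (mul_ne_zero (by norm_num) hM0) hH0, Real.log_mul (by norm_num) hM0]
      have h5 : 1 + pairHeight d F' + height ![(m : Qbar)] +
          height (fun p : Fin r × Fin (n + 1) => V' p.1 p.2) ≤ Real.log (3 * M * H * m) := by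
        linarith
      have h6 : 0 ≤ Real.log (3 * M * H * m) := Real.log_nonneg hMH
      have hbound : absLogHeight (fun a => ((x a : ℤ) : Qbar)) ≤
          ⌈C⌉₊ * Real.log (3 * M * H * m) :=
        hmain.trans ((mul_le_mul_of_nonneg_left h5 hC0).trans
          (mul_le_mul_of_nonneg_right (Nat.le_ceil C) h6))
      have hht := absLogHeight_int (ι := Fin (n + 1)) x hgcd
      rw [hht] at hbound
      intro a
      have hsup : |x a| ≤ ⨆ a, |x a| :=
        le_ciSup (f := fun a => |x a|) (Set.finite_range _).bddAbove a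
      by_cases hpos : (⨆ a, |x a| : ℤ) ≤ 0
      · have h7 : |x a| ≤ 0 := hsup.trans hpos
        exact h7.trans (by positivity)
      · push Not at hpos
        have h8 : ((⨆ a, |x a| : ℤ) : ℝ) ≤ (3 * M * H * m : ℝ) ^ ⌈C⌉₊ := by
          rw [← Real.log_le_log_iff (by exact_mod_cast hpos)
            (pow_pos (lt_of_lt_of_le one_pos hMH) _), Real.log_pow]
          exact hbound
        have h9 : (⨆ a, |x a| : ℤ) ≤ (3 * M * H * m) ^ ⌈C⌉₊ := by exact_mod_cast h8
        exact hsup.trans h9
    · right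
      refine ⟨l, hl, ?_⟩
      refine Pool.Agent.Q204.UF.gmCurve_descend (algebraMap ℚ Qbar) _ _ ?_
      have e1 : (fun i => map (algebraMap ℚ Qbar) (map (algebraMap ℤ ℚ) (F i))) = F' := by
        rw [hF']
        funext i
        rw [map_map]
        congr 1
      have e2 : (fun a => (∑ j, Polynomial.C (u j * V j a) * Polynomial.X ^ l j :
          Polynomial ℚ).map (algebraMap ℚ Qbar)) = fun a => ∑ j, Polynomial.C ((u' j : Qbar) *
            V' j a) * Polynomial.X ^ l j := by
        funext a
        rw [Polynomial.map_sum]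
        refine Finset.sum_congr rfl fun j _ => ?_
        rw [Polynomial.map_mul, Polynomial.map_C, Polynomial.map_pow, Polynomial.map_X, map_mul,
          hu', hV', map_intCast]
      rw [e1, e2]
      exact hcur

end Pool.Agent.Results.MP_17a322_nt.GmCurvesOrBoundedHeight
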