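import Mathlib
import Pool.Agent.Q256.VS.Tot

set_option autoImplicit false

/-!
# Vojta's inequality for almost all complete intersections and almost all divisors in a fixed variety

`Y ⊆ ℙⁿ` is a fixed variety over `ℚ`, `𝒴` a set of rational points of `Y` (given by coprime
coordinates) and `w` a height for `-K_Y` on `𝒴` such that `∑_{y ∈ 𝒴} exp (-(w(y) + ε h(y)))`
converges for all `ε > 0` (the upper bound in Manin's conjecture, for instance all rational points
of `ℙⁿ` or of `ℙ^a × ℙ^b`).  The only thing used about `𝒴` and `w` is this convergence, so `𝒴` may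
be any set of rational points; if it has `O(B^(κ+ε))` points of height `≤ B`, then `w = κ h` is
allowed.

`X ⊆ Y` is the intersection with `s` hypersurfaces `G_j = 0` of degrees `e_j` and
`D = ∑ D_i`, `D_i = X ∩ {F_i = 0}`, `deg F_i = d_i`, `i < r`.  By adjunction
`K_X = K_Y + ∑ e_j` on `X`.  The `M` coefficients of the `G_j` and `F_i` run through `[-H, H]`.
For almost all pairs `(X, D)` the inequality of Vojta
`m_{S,D}(P) + h_{K_X}(P) ≤ ε h(P) - (s + r - δ) log T`,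
and even the inequality with the truncated counting function, holds at ALL points `P ∈ 𝒴` of `X`
outside `D` which are cut out by `n` hyperplanes with integral coefficients in `[-T, T]`, in
particular at all points with `h(P) ≤ log T`; the exceptional pairs are at most `C T^(M - δ + ε)`.

* `Box n d B` : forms of degree `d` in `n + 1` variables, integral coefficients in `[-B, B]`;
* `Prim y` : the integral vector `y` has coprime coordinates; `ht y` : its logarithmic height;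
* `CutOut T x` : `x` is the intersection point of `n` independent hyperplanes with integral
  coefficients in `[-T, T]`;
* `Conv 𝒴 w` : the series converges;
* `prox S d F y` : the proximity function of `D` for the places `∞` and `p ∈ S`;
* `N1 S F y` : sum of `log p` over the primes `p` outside `S` dividing `∏ i, F i (y)`;
* `FailsM`, `Fails` : the pairs for which the inequality, respectively the truncated inequality,
  fails at such a point;
* `IntS`, `Camp` : the pairs for which `X \ D` has an `S`-integral point of this kind, respectively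
  the pair `(X, ∑ (1 - 1 / m_i) D_i)` has an `S`-integral Campana point of this kind.
-/

namespace Pool.Agent.Results.MP_17a322_nt.HypersurfaceSections

open MvPolynomial
open Pool.Agent.Q256.CI Pool.Agent.Q256.VT Pool.Agent.Q256.VS

theorem result (n s r : ℕ) (S : Finset ℕ) (e : Fin s → ℕ) (d : Fin r → ℕ) (hd : ∀ i, 1 ≤ d i)
    (𝒴 : Set (Fin (n + 1) → ℤ)) (hprim : ∀ y ∈ 𝒴, Prim y)
    (w : (Fin (n + 1) → ℤ) → ℝ) (hw : Conv 𝒴 w) (ε : ℝ) (hε : 0 < ε) :
    -- Vojta's inequality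
    (∃ C : ℝ, ∀ (δ : ℝ) (H T : ℕ), 1 ≤ H → H ≤ T →
      (Nat.card (FailsM S e d 𝒴 w H T ε δ) : ℝ) ≤ C * (T : ℝ) ^
        ((∑ j, ((n + e j).choose n : ℝ)) + (∑ i, ((n + d i).choose n : ℝ)) - δ + ε)) ∧
    -- with the truncated counting function
    (∃ C : ℝ, ∀ (δ : ℝ) (H T : ℕ), 1 ≤ H → H ≤ T →
      (Nat.card (Fails S e d 𝒴 w H T ε δ) : ℝ) ≤ C * (T : ℝ) ^
        ((∑ j, ((n + e j).choose n : ℝ)) + (∑ i, ((n + d i).choose n : ℝ)) - δ + ε)) ∧
    -- integral points, log general type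
    (∀ g c : ℝ, 0 < g →
      (∀ y ∈ 𝒴, w y ≤ ((∑ j, (e j : ℝ)) + (∑ i, (d i : ℝ)) - g) * ht y + c) →
      ∃ C : ℝ, ∀ H T : ℕ, 1 ≤ H → H ≤ T → (Nat.card (IntS S e d 𝒴 H T) : ℝ) ≤ C * (T : ℝ) ^
        ((∑ j, ((n + e j).choose n : ℝ)) + (∑ i, ((n + d i).choose n : ℝ)) - (s + r) + ε)) ∧
    -- Campana points, general type
    (∀ m : Fin r → ℕ, (∀ i, 1 ≤ m i) → ∀ g c : ℝ, 0 < g →
      (∀ y ∈ 𝒴, w y ≤
        ((∑ j, (e j : ℝ)) + (∑ i, (d i : ℝ) * (1 - 1 / (m i : ℝ))) - g) * ht y + c) →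
      ∃ C : ℝ, ∀ H T : ℕ, 1 ≤ H → H ≤ T → (Nat.card (Camp S e d m 𝒴 H T) : ℝ) ≤ C * (T : ℝ) ^
        ((∑ j, ((n + e j).choose n : ℝ)) + (∑ i, ((n + d i).choose n : ℝ)) -
          (s + ∑ i, (1 - 1 / (m i : ℝ))) + ε)) ∧
    -- the number of all pairs, and the points of height at most `T`
    (∀ H : ℕ, Nat.card {P : Sys n s r // InBox e d H P} =
      (2 * H + 1) ^ ((∑ j, (n + e j).choose n) + ∑ i, (n + d i).choose n)) ∧
    (∀ (T : ℕ) (y : Fin (n + 1) → ℤ), y ≠ 0 → (∀ k, |y k| ≤ T) →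
      CutOut T (fun k => (y k : ℚ))) ∧
    -- examples: any set with a bound for the number of points, `ℙ^a`, and `ℙ^a × ℙ^b`
    (∀ (a : ℕ) (𝒵 : Set (Fin (a + 1) → ℤ)), (∀ y ∈ 𝒵, Prim y) → ∀ κ : ℝ,
      (∀ ε : ℝ, 0 < ε → ∃ C : ℝ, ∀ B : ℕ, 1 ≤ B →
        (Nat.card {y : Fin (a + 1) → ℤ // y ∈ 𝒵 ∧ ∀ k, |y k| ≤ B} : ℝ) ≤
          C * (B : ℝ) ^ (κ + ε)) → Conv 𝒵 (fun y => κ * ht y)) ∧
    (∀ a : ℕ, Conv {y : Fin (a + 1) → ℤ | Prim y} (fun y => ((a : ℝ) + 1) * ht y)) ∧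
    (∀ a b : ℕ, ∃ w : (Fin (a * b + a + b + 1) → ℤ) → ℝ,
      (∀ (u : Fin (a + 1) → ℤ) (v : Fin (b + 1) → ℤ), Prim u → Prim v →
        w (segre u v) = ((a : ℝ) + 1) * ht u + ((b : ℝ) + 1) * ht v) ∧
      Conv {y | ∃ (u : Fin (a + 1) → ℤ) (v : Fin (b + 1) → ℤ),
        Prim u ∧ Prim v ∧ y = segre u v} w) := by
  refine ⟨?_, ?_, fun g c hg hbig => ?_, fun m hm g c hg hbig => ?_, fun H => total2 e d H,
    fun T y hy hT => cutOut_small T y hy hT, fun a 𝒵 h𝒵 κ hκ => conv_count 𝒵 h𝒵 κ hκ,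
    fun a => conv_proj a, fun a b => conv_segre a b⟩
  · obtain ⟨C, hC⟩ := failsM (n := n) S e d hd 𝒴 hprim w hw ε hε
    exact ⟨C, fun δ H T hH hHT => hC δ H T (hH.trans hHT) hHT⟩
  · obtain ⟨C, hC⟩ := fails (n := n) S e d hd 𝒴 hprim w hw ε hε
    exact ⟨C, fun δ H T hH hHT => hC δ H T (hH.trans hHT) hHT⟩
  · obtain ⟨C, hC⟩ := ints (n := n) S e d hd 𝒴 hprim w hw g c hg hbig ε hε
    exact ⟨C, fun H T hH hHT => hC H T (hH.trans hHT) hHT⟩
  · obtain ⟨C, hC⟩ := camp (n := n) S e d m hd hm 𝒴 hprim w hw g c hg hbig ε hε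
    exact ⟨C, fun H T hH hHT => hC H T (hH.trans hHT) hHT⟩

end Pool.Agent.Results.MP_17a322_nt.HypersurfaceSections
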