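import Mathlib
import Pool.Agent.Q51.VX.Asm
import Pool.Agent.Q51.HG.SmoothCI

set_option autoImplicit false

/-!
# An inequality of Vojta type without exceptional set, for 100 percent of the pairs over `ℚ`, at all
rational points that are short sums of `S`-units with small coefficients

Let `F 1, …, F q` be forms of degrees `d 1, …, d q` in `n + 1` variables over `ℚ` and `C` a subset
of `{1, …, q}` with `∑_{c ∈ C} (d c + 1) ≤ 2 n`. Let `V` be the complete intersection `F c = 0`,
`c ∈ C`, in projective `n`-space (all of it, if `C` is empty) and `D` the divisor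
`∑_{b ∉ C} (F b = 0)` of `V`. The canonical class of `V` is `∑_{c ∈ C} d c - n - 1` times the
hyperplane class.

For every `r` there is a nonzero polynomial `h` with integral coefficients in the coefficients of the
forms, such that for ALL forms with `h (F) ≠ 0` (that is, for 100 percent of the pairs `(V, D)`) the
hypersurfaces are smooth and meet transversally, and for all finite sets `S` of primes, all `B` and all
`ε > 0` there are `δ > 0` and a constant such that ALL primitive integer points `x` of `V` off `D`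
which are sums of `r` `S`-units, with integral vectors of size at most `B H(x) ^ δ` as coefficients,
satisfy

  `m_{S,D}(x) + h_K(x) ≤ (dim V - 1 + ε) h(x) + O(1)`.

There is no exceptional set. (Vojta's conjecture has `ε h(x)` on the right side, for the points outside
a proper closed subset `Z`, which cannot be empty in general if the dimension of `V` is at least `2`:
a smooth rational curve of degree one in `V` may meet `D` in very few points. For `dim V = 1` it
is Vojta's inequality.) For `V = ℙ^n` the right side of `m_{S,D}(x) ≤ (2 n + ε) h(x) + O(1)` does not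
depend on the degree of `D`.
-/

namespace Pool.Agent.Results.MP_17a322_nt.NoExceptionalSet

open MvPolynomial

/-- The indices of the coefficients of `q` forms of degrees `d i` in `n + 1` variables. -/
abbrev Index (n : ℕ) {q : ℕ} (d : Fin q → ℕ) : Type :=
  (i : Fin q) × {α : Fin (n + 1) →₀ ℕ // α.degree = d i}

/-- The value of the polynomial `h` at the coefficients of the forms `F i`. -/
noncomputable def valueAt {n q : ℕ} {d : Fin q → ℕ} {K : Type} [Field K]
    (h : MvPolynomial (Index n d) ℤ) (F : Fin q → MvPolynomial (Fin (n + 1)) K) : K :=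
  aeval (fun x : Index n d => coeff x.2.1 (F x.1)) h

/-- The hypersurfaces `F i = 0` are smooth and meet transversally: in every point of projective space
(over any field `Ω ⊇ K`) the gradients of those `F i` that vanish there are linearly independent. -/
def Transversal {n q : ℕ} {K : Type} [Field K] (F : Fin q → MvPolynomial (Fin (n + 1)) K) : Prop :=
  ∀ (Ω : Type) [Field Ω] [Algebra K Ω] (x : Fin (n + 1) → Ω), x ≠ 0 →
    LinearIndependent Ω (fun i : {i // aeval x (F i) = 0} => fun k => aeval x (pderiv k (F i.1)))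

/-- `x` is a primitive integer vector; every rational point of a projective space is represented by
exactly two of them, `x` and `-x` -/
def IsPrimitive {n : ℕ} (x : Fin (n + 1) → ℤ) : Prop :=
  Finset.univ.gcd x = 1

/-- `max |x_i|`, the multiplicative height of the point given by a primitive `x` -/
def height {n : ℕ} (x : Fin (n + 1) → ℤ) : ℕ :=
  Finset.univ.sup (fun i => (x i).natAbs)

/-- The value `F (x)`. -/
noncomputable def value {n : ℕ} (F : MvPolynomial (Fin (n + 1)) ℚ) (x : Fin (n + 1) → ℤ) : ℚ :=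
  eval (fun i => (x i : ℚ)) F

/-- The proximity function `m_S(x)`, for the infinite place and the primes `p ∈ S`, of the
hypersurface `F = 0`, `F` a form of degree `e`, at a primitive `x`. -/
noncomputable def proximity {n : ℕ} (F : MvPolynomial (Fin (n + 1)) ℚ) (e : ℕ) (S : Finset ℕ)
    (x : Fin (n + 1) → ℤ) : ℝ :=
  -Real.log (|(value F x : ℝ)| / (height x : ℝ) ^ e) +
    ∑ p ∈ S, -Real.log ((padicNorm p (value F x) : ℚ) : ℝ)

/-- The height for the canonical class of the complete intersection `F c = 0`, `c ∈ C`. -/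
noncomputable def canonicalHeight (n : ℕ) {q : ℕ} (d : Fin q → ℕ) (C : Finset (Fin q))
    (x : Fin (n + 1) → ℤ) : ℝ :=
  (∑ c ∈ C, (d c : ℝ) - (n + 1)) * Real.log (height x)

/-- `u` is an `S`-unit: plus or minus a product of powers (with integer exponents) of the primes in
`S` -/
def IsSUnit (S : Finset ℕ) (u : ℚ) : Prop :=
  ∃ (σ : ℤ) (e : ℕ → ℤ), (σ = 1 ∨ σ = -1) ∧ u = σ * ∏ p ∈ S, (p : ℚ) ^ e p

/-- The coordinates `x i` are sums of `r` `S`-units `u j` (the same for all coordinates) with integer
coefficients of absolute value at most `B * H(x) ^ δ`. -/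
def IsShortSum {n : ℕ} (S : Finset ℕ) (r : ℕ) (B δ : ℝ) (x : Fin (n + 1) → ℤ) : Prop :=
  ∃ (u : Fin r → ℚ) (c : Fin r → Fin (n + 1) → ℤ), (∀ j, IsSUnit S (u j)) ∧
    (∀ j i, |(c j i : ℝ)| ≤ B * (height x : ℝ) ^ δ) ∧ ∀ i, (x i : ℚ) = ∑ j, u j * c j i

theorem valueAt_eq {n q : ℕ} {d : Fin q → ℕ} {K : Type} [Field K]
    (h : MvPolynomial (Index n d) ℤ) (F : Fin q → MvPolynomial (Fin (n + 1)) K) :
    valueAt h F = Pool.Agent.Q51.HG.sp d F h := rfl

theorem transversal_of {n q : ℕ} {d : Fin q → ℕ} {h : MvPolynomial (Index n d) ℤ}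
    (hh : ∀ (L : Type) [Field L] (F : Fin q → MvPolynomial (Fin (n + 1)) L),
      (∀ i, (F i).IsHomogeneous (d i)) → Pool.Agent.Q51.HG.sp d F h ≠ 0 →
      ∀ x : Fin (n + 1) → L, x ≠ 0 →
      LinearIndependent L (fun i : {i // eval x (F i) = 0} => fun k =>
        eval x (pderiv k (F i.1))))
    {K : Type} [Field K] (F : Fin q → MvPolynomial (Fin (n + 1)) K)
    (hF : ∀ i, (F i).IsHomogeneous (d i)) (hv : valueAt h F ≠ 0) : Transversal F := by
  intro Ω _ _ x hx
  have h1 := hh Ω (fun i => map (algebraMap K Ω) (F i)) (fun i => (hF i).map _) (by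
    rw [Pool.Agent.Q51.HG.sp_map]
    exact (map_ne_zero _).2 hv) x hx
  have h2 : ∀ i k, eval x (pderiv k (map (algebraMap K Ω) (F i))) = aeval x (pderiv k (F i)) := by
    intro i k
    rw [pderiv_map, eval_map, ← aeval_def]
  have h3 : ∀ i, eval x (map (algebraMap K Ω) (F i)) = aeval x (F i) := by
    intro i
    rw [eval_map, ← aeval_def]
  simp only [h2] at h1
  refine (h1.comp (fun i : {i // aeval x (F i) = 0} => ⟨i.1, by rw [h3]; exact i.2⟩) ?_)
  intro i i' hii
  simpa [Subtype.ext_iff] using hii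

/-- **Main theorem.** For 100 percent of the pairs `(V, D)` over `ℚ`, `V` a complete intersection with
`∑_{c ∈ C} (d c + 1) ≤ 2 n`, all primitive integer points `x` of `V` off `D` which are sums of `r`
`S`-units with coefficients of size at most `B H(x) ^ δ` satisfy
`m_{S,D}(x) + h_K(x) ≤ (dim V - 1 + ε) h(x) + C0`. -/
theorem result (n : ℕ) {q : ℕ} (d : Fin q → ℕ) (C : Finset (Fin q))
    (hC : ∑ c ∈ C, (d c + 1) ≤ 2 * n) (r : ℕ) :
    ∃ h : MvPolynomial (Index n d) ℤ, h ≠ 0 ∧
      ∀ F : Fin q → MvPolynomial (Fin (n + 1)) ℚ,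
        (∀ i, (F i).IsHomogeneous (d i)) → valueAt h F ≠ 0 →
        Transversal F ∧
        ∀ (S : Finset ℕ), (∀ p ∈ S, p.Prime) → ∀ B ε : ℝ, 0 < ε → ∃ δ C0 : ℝ, 0 < δ ∧
          ∀ x : Fin (n + 1) → ℤ, IsPrimitive x → (∀ c ∈ C, value (F c) x = 0) →
            (∀ b, b ∉ C → value (F b) x ≠ 0) → IsShortSum S r B δ x →
            ∑ b ∈ Finset.univ \ C, proximity (F b) (d b) S x + canonicalHeight n d C x ≤
              ((n : ℝ) - C.card - 1 + ε) * Real.log (height x) + C0 := by
  classical
  obtain ⟨h1, h10, h1s⟩ := Pool.Agent.Q51.HG.gen_snc n d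
  obtain ⟨h2, h20, h2s⟩ := Pool.Agent.Q51.VX.pairs d C hC r
  refine ⟨h1 * h2, mul_ne_zero h10 h20, fun F hF hv => ?_⟩
  rw [valueAt_eq, map_mul] at hv
  refine ⟨transversal_of h1s F hF (left_ne_zero_of_mul hv), ?_⟩
  intro S hS B ε hε
  set b : Fin S.card → ℕ := fun v => (S.equivFin.symm v : ℕ) with hb
  have hbS : ∀ v, b v ∈ S := fun v => (S.equivFin.symm v).2
  have hbp : ∀ v, (b v).Prime := fun v => hS _ (hbS v)
  have hbi : Function.Injective b := by
    intro v v' h
    exact S.equivFin.symm.injective (Subtype.ext h)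
  have hsum : ∀ f : ℕ → ℝ, ∑ v, f (b v) = ∑ p ∈ S, f p := by
    intro f
    rw [← Finset.sum_coe_sort S f, ← Equiv.sum_comp S.equivFin.symm]
  have hunit : ∀ u : ℚ, IsSUnit S u → Pool.Agent.TH551.SU.IsSU b u := by
    rintro u ⟨σ, e, hσ, rfl⟩
    refine ⟨σ, fun v => e (b v), hσ, ?_⟩
    congr 1
    rw [← Finset.prod_coe_sort S (fun p => (p : ℚ) ^ e p), ← Equiv.prod_comp S.equivFin.symm]
  obtain ⟨δ, C0, hδ, hmain⟩ := h2s F hF (right_ne_zero_of_mul hv) S.card b hbp hbi (max B 1) ε
    (le_max_right _ _) hε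
  refine ⟨δ, C0, hδ, fun x hx hV hD hshort => ?_⟩
  have hsh : Pool.Agent.Q51.VX.Short1 b r (max B 1) δ x := by
    obtain ⟨u, c, e1, e2, e3⟩ := hshort
    refine ⟨u, c, fun j => hunit _ (e1 j), fun j y => ?_, e3⟩
    exact (e2 j y).trans (mul_le_mul_of_nonneg_right (le_max_left _ _)
      (Real.rpow_nonneg (Nat.cast_nonneg _) _))
  have key := hmain x hx hV hD hsh
  have hH : (0 : ℝ) < (height x : ℝ) := by
    have := Pool.Agent.Y724.Vj.hh_pos x hx
    exact_mod_cast this
  have hprox : ∀ i ∈ Finset.univ \ C, proximity (F i) (d i) S x =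
      (d i : ℝ) * Real.log (Pool.Agent.Y724.Vj.hh x) - ∑ v, Real.log
        (Pool.Agent.Y724.Vj.wv b hbp v (eval (fun y => (x y : ℚ)) (F i))) := by
    intro i hi
    have h0 : value (F i) x ≠ 0 := hD i (Finset.mem_sdiff.1 hi).2
    have h0' : (value (F i) x : ℝ) ≠ 0 := by exact_mod_cast h0
    unfold proximity
    rw [Fintype.sum_option, Pool.Agent.Y724.Vj.wv_none,
      Real.log_div (abs_ne_zero.2 h0') (pow_ne_zero _ hH.ne'), Real.log_pow,
      ← hsum fun p => -Real.log ((padicNorm p (value (F i) x) : ℚ) : ℝ), Finset.sum_neg_distrib]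
    have h1 : ∀ v, Real.log (Pool.Agent.Y724.Vj.wv b hbp (some v)
        (eval (fun y => (x y : ℚ)) (F i))) =
        Real.log ((padicNorm (b v) (value (F i) x) : ℚ) : ℝ) := fun v => by
      rw [Pool.Agent.Y724.Vj.wv_some]
      rfl
    rw [Finset.sum_congr rfl fun v _ => h1 v]
    change -(Real.log |(value (F i) x : ℝ)| - d i * Real.log (height x : ℝ)) + _ =
      d i * Real.log (height x : ℝ) - (Real.log |(value (F i) x : ℝ)| + _)
    ring
  rw [Finset.sum_congr rfl hprox]
  have h3 : (2 * (n : ℝ) - ∑ c ∈ C, ((d c : ℝ) + 1) + ε) * Real.log (height x) =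
      ((n : ℝ) - C.card - 1 + ε) * Real.log (height x) - canonicalHeight n d C x := by
    unfold canonicalHeight
    rw [Finset.sum_add_distrib, Finset.sum_const, nsmul_eq_mul, mul_one]
    ring
  have h4 : (2 * (n : ℝ) - ∑ c ∈ C, ((d c : ℝ) + 1) + ε) *
      Real.log (Pool.Agent.Y724.Vj.hh x) = (2 * (n : ℝ) - ∑ c ∈ C, ((d c : ℝ) + 1) + ε) *
      Real.log (height x) := rfl
  rw [h4, h3] at key
  linarith

end Pool.Agent.Results.MP_17a322_nt.NoExceptionalSet
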