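import Mathlib
import Pool.Agent.Q273.NC.Main

/-!
# Vojta's main conjecture on `ℙ^N` near almost every adelic point

`D = ∑ D_j` is any divisor of `ℙ^N` over `ℚ` with strict normal crossings, with any number of
components `F_j = 0` of any degrees, `S` a finite set of primes and `∞`, `m_{S,D}` the proximity
function. The target is an adelic point `u = (ξ, η)`: `ξ ∈ ℝ^N` and `η_p ∈ ℤ_p^N` for every prime `p`;
`m_V(x)` is the proximity of the rational point `x` of `ℙ^N` to the target at `∞` and at the primes in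
the finite set `V`. For almost every target and all `V` it is at most `((N + 1) / N + ε) h(x) + C`.

For almost every target, ALL divisors `D`, all `S`, `V` and `ε > 0` we show
`N m_V(x) + min (m_{S,D}(x), h(x)) ≤ (N + 1 + ε) h(x) + C` for ALL rational points `x` off `D`. So
Vojta's inequality `m_{S,D}(x) + h_K(x) ≤ ε h(x) + C`, `h_K = - (N + 1) h`, holds for all `x` off `D` with
`N m_V(x) ≥ (N + ε) h(x)`, without an exceptional subset, and even with `N m_V(x)` added on the left.
For an arbitrary hypersurface `D` of degree `d`, with any singularities and multiplicities,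
`N m_V(x) + m_{S,D}(x) / d ≤ (N + 1 + ε) h(x) + C` for ALL `x` off `D`.
-/

set_option autoImplicit false

open MeasureTheory

namespace Pool.Agent.Results.MP_17a322_nt.NormalCrossingsNearAdeles

variable {N : ℕ}

/-- `x` is a primitive integer vector; every rational point of `ℙ^N` is represented by exactly two
of them, `x` and `-x` -/
def IsPrimitive (x : Fin (N + 1) → ℤ) : Prop := Finset.univ.gcd x = 1

/-- the logarithmic height `h(x) = log max |x_i|` of the point given by a primitive `x` -/
noncomputable def height (x : Fin (N + 1) → ℤ) : ℝ :=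
  Real.log ((Finset.univ.sup (fun i => (x i).natAbs) : ℕ) : ℝ)

/-- The proximity function `m_{S,D}(x)` of the divisor `D` with the components `F j = 0` of degrees
`d j`, for the places `∞` and `p ∈ S`, at a primitive `x` off `D`: the local height of `F j = 0` at
`∞` is `log (max |x_i| ^ d j / |F j x|)`, the local height at `p` is
`log (1 / |F j x|_p) = ord_p (F j x) log p`. -/
noncomputable def proximity {q : ℕ} (F : Fin q → MvPolynomial (Fin (N + 1)) ℤ) (d : Fin q → ℕ)
    (S : Finset ℕ) (x : Fin (N + 1) → ℤ) : ℝ :=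
  ∑ j, (Real.log (((Finset.univ.sup (fun i => (x i).natAbs) : ℕ) : ℝ) ^ d j /
      |((MvPolynomial.eval x (F j) : ℤ) : ℝ)|) +
    ∑ p ∈ S, (padicValInt p (MvPolynomial.eval x (F j)) : ℝ) * Real.log p)

/-- The divisor `∑ j, {F j = 0}` has strict normal crossings at its points over the field `K`: at
every point `z` the gradients of those `F j` that vanish at `z` are linearly independent, so these
components are smooth at `z` and meet transversally. -/
def NormalCrossingsOver {q : ℕ} (F : Fin q → MvPolynomial (Fin (N + 1)) ℤ) (K : Type) [Field K] :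
    Prop :=
  ∀ z : Fin (N + 1) → K, z ≠ 0 →
    LinearIndependent K (fun j : {j : Fin q // MvPolynomial.aeval z (F j) = 0} =>
      fun i => MvPolynomial.aeval z (MvPolynomial.pderiv i (F j.1)))

/-- a divisor of `ℙ^N` over `ℚ` and a finite set `S` of primes such that the divisor has strict normal
crossings at its real points and at its `p`-adic points for `p ∈ S` (weaker than strict normal
crossings over an algebraic closure) -/
structure Divisor {q : ℕ} (F : Fin q → MvPolynomial (Fin (N + 1)) ℤ) (d : Fin q → ℕ)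
    (S : Finset ℕ) : Prop where
  homogeneous : ∀ j, (F j).IsHomogeneous (d j)
  prime : ∀ p ∈ S, p.Prime
  real : NormalCrossingsOver F ℝ
  padic : ∀ (p : ℕ) [Fact p.Prime], p ∈ S → NormalCrossingsOver F ℚ_[p]

/-- the product of the `ℤ_p^N` over all primes `p`, with the product topology -/
abbrev ZHat (N : ℕ) : Type := (p : Nat.Primes) → Fin N → @PadicInt p.1 ⟨p.2⟩

/-- the proximity to the target at the prime `p`: `log max (1, 1 / max_j |η_j - x_j / x_0|_p)` -/
noncomputable def mP (u : (Fin N → ℝ) × ZHat N) (p : Nat.Primes) (x : Fin (N + 1) → ℤ) : ℝ :=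
  haveI : Fact p.1.Prime := ⟨p.2⟩
  Real.log (max 1 (⨆ j : Fin N,
    ‖((u.2 p j : ℤ_[p.1]) : ℚ_[p.1]) - (((x j.succ : ℚ) / x 0 : ℚ) : ℚ_[p.1])‖)⁻¹)

/-- the proximity to the target at `∞` and at the primes in `V` -/
noncomputable def mV (V : Finset Nat.Primes) (u : (Fin N → ℝ) × ZHat N) (x : Fin (N + 1) → ℤ) : ℝ :=
  Real.log (max 1 (⨆ j : Fin N, |u.1 j - (((x j.succ : ℚ) / x 0 : ℚ) : ℝ)|)⁻¹) + ∑ p ∈ V, mP u p x

/-- `x` represents a rational point with `x_0 ≠ 0` off the divisor -/
def Off {q : ℕ} (F : Fin q → MvPolynomial (Fin (N + 1)) ℤ) (x : Fin (N + 1) → ℤ) : Prop :=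
  IsPrimitive x ∧ x 0 ≠ 0 ∧ ∀ j, MvPolynomial.eval x (F j) ≠ 0

lemma sum_val_le (n : ℤ) (hn : n ≠ 0) (S : Finset ℕ) (hS : ∀ p ∈ S, p.Prime) :
    ∑ p ∈ S, (padicValInt p n : ℝ) * Real.log p ≤ Real.log |(n : ℝ)| := by
  have h1 : |(n : ℝ)| = (n.natAbs : ℝ) := by
    rw [← Int.cast_abs, Int.abs_eq_natAbs, Int.cast_natCast]
  rw [h1, Real.log_nat_eq_sum_factorization, Finsupp.sum]
  have h2 : ∀ p ∈ S, (padicValInt p n : ℝ) * Real.log p =
      (n.natAbs.factorization p : ℝ) * Real.log p := by
    intro p hp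
    rw [padicValInt, Nat.factorization_def _ (hS p hp)]
  rw [Finset.sum_congr rfl h2]
  refine (Finset.sum_le_sum_of_subset_of_nonneg (Finset.subset_union_left
    (s₂ := n.natAbs.factorization.support)) fun p _ _ =>
      mul_nonneg (Nat.cast_nonneg _) (Real.log_natCast_nonneg _)).trans (le_of_eq ?_)
  exact (Finset.sum_subset Finset.subset_union_right (fun p _ hp => by
    rw [Finsupp.notMem_support_iff.1 hp, Nat.cast_zero, zero_mul])).symm

lemma height_nonneg (x : Fin (N + 1) → ℤ) : 0 ≤ height x := Real.log_natCast_nonneg _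

lemma prox_upper {q : ℕ} (F : Fin q → MvPolynomial (Fin (N + 1)) ℤ) (d : Fin q → ℕ)
    (S : Finset ℕ) (hS : ∀ p ∈ S, p.Prime) (x : Fin (N + 1) → ℤ) (hx : IsPrimitive x)
    (hne : ∀ j, MvPolynomial.eval x (F j) ≠ 0) :
    proximity F d S x ≤ (∑ j, (d j : ℝ)) * height x := by
  unfold proximity
  rw [Finset.sum_mul]
  refine Finset.sum_le_sum fun j _ => ?_
  have h1 := sum_val_le _ (hne j) S hS
  have hH : (0 : ℝ) < ((Finset.univ.sup (fun i => (x i).natAbs) : ℕ) : ℝ) := by
    have := Pool.Agent.Results.MP_17a322_nt.NormalCrossings.one_le_height x hx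
    exact_mod_cast this
  have h3 : (0 : ℝ) < |((MvPolynomial.eval x (F j) : ℤ) : ℝ)| := by
    rw [abs_pos]
    exact_mod_cast hne j
  rw [Real.log_div (pow_pos hH _).ne' h3.ne', Real.log_pow]
  have h4 : (d j : ℝ) * Real.log ((Finset.univ.sup (fun i => (x i).natAbs) : ℕ) : ℝ) =
      (d j : ℝ) * height x := rfl
  linarith

/-- **Vojta's main conjecture on `ℙ^N` for all divisors with normal crossings near almost every adelic
point.** Let `N ≥ 1` and let `μ` be a finite translation invariant Borel measure on the compact group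
`ZHat N` (a multiple of Haar measure). For almost every `u = (ξ, η)` with respect to the product of
Lebesgue measure and `μ`, for all finite sets `V` of primes and all `ε > 0`:
(1) for all divisors `D` with strict normal crossings, with any number of components of any degrees,
and all finite `S` there is `C` such that ALL rational points `x` off `D` satisfy
`N m_V(x) + min (m_{S,D}(x), h(x)) ≤ (N + 1 + ε) h(x) + C`;
(2) for all such `D`, `S` there is `C` such that all rational points `x` off `D` with
`N m_V(x) ≥ (N + ε) h(x)` satisfy `N m_V(x) + m_{S,D}(x) ≤ (N + 1 + ε) h(x) + C`;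
(3) for all forms `F ≠ 0` of degree `d ≥ 1`, `D = {F = 0}`, and all finite `S` there is `C` such that
ALL rational points `x` off `D` satisfy `N m_V(x) + m_{S,D}(x) / d ≤ (N + 1 + ε) h(x) + C`. -/
theorem result (N : ℕ) (hN : 1 ≤ N) [MeasurableSpace (ZHat N)] [BorelSpace (ZHat N)]
    (μ : Measure (ZHat N)) [IsFiniteMeasure μ] [μ.IsAddLeftInvariant] :
    ∀ᵐ u : (Fin N → ℝ) × ZHat N ∂(volume.prod μ), ∀ V : Finset Nat.Primes, ∀ ε : ℝ, 0 < ε →
      (∀ (q : ℕ) (F : Fin q → MvPolynomial (Fin (N + 1)) ℤ) (d : Fin q → ℕ) (S : Finset ℕ),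
        Divisor F d S →
        (∃ C : ℝ, ∀ x : Fin (N + 1) → ℤ, Off F x →
          N * mV V u x + min (proximity F d S x) (height x) ≤ ((N : ℝ) + 1 + ε) * height x + C) ∧
        ∃ C : ℝ, ∀ x : Fin (N + 1) → ℤ, Off F x → ((N : ℝ) + ε) * height x ≤ N * mV V u x →
          N * mV V u x + proximity F d S x ≤ ((N : ℝ) + 1 + ε) * height x + C) ∧
      ∀ (F : MvPolynomial (Fin (N + 1)) ℤ) (d : ℕ) (S : Finset ℕ), F ≠ 0 → 1 ≤ d →
        F.IsHomogeneous d → (∀ p ∈ S, p.Prime) →
        ∃ C : ℝ, ∀ x : Fin (N + 1) → ℤ, Off (fun _ : Fin 1 => F) x →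
          N * mV V u x + proximity (fun _ : Fin 1 => F) (fun _ => d) S x / d ≤
            ((N : ℝ) + 1 + ε) * height x + C := by
  filter_upwards [Q273.NC.law_z hN μ] with u hu V ε hε
  obtain ⟨h1, h2⟩ := hu
  refine ⟨fun q F d S hD => ?_, fun F d S hF0 hd hF hS => ?_⟩
  · have hlaw : ∀ ε : ℝ, 0 < ε → ∃ C : ℝ, ∀ x : Fin (N + 1) → ℤ, Off F x →
        N * mV V u x + min (proximity F d S x) (height x) ≤ ((N : ℝ) + 1 + ε) * height x + C := by
      intro ε hε
      obtain ⟨C, hC⟩ := h1 q F d S hD.homogeneous hD.prime ⟨hD.real, fun p _ hp => hD.padic p hp⟩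
        V ε hε
      refine ⟨C, fun x hx => ?_⟩
      have h3 := hC x hx.1 hx.2.2
      rw [inv_one, one_mul, one_mul] at h3
      exact h3
    refine ⟨hlaw ε hε, ?_⟩
    obtain ⟨C, hC⟩ := hlaw (ε / 2) (by positivity)
    refine ⟨max C 0 + (∑ j, (d j : ℝ)) * (2 * max C 0 / ε), fun x hx hle => ?_⟩
    have h3 := hC x hx
    have hh := height_nonneg x
    have hC0 : 0 ≤ max C 0 := le_max_right _ _
    have hC1 : C ≤ max C 0 := le_max_left _ _
    have hdd : 0 ≤ ∑ j, (d j : ℝ) := Finset.sum_nonneg fun _ _ => Nat.cast_nonneg _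
    have hprod : 0 ≤ (∑ j, (d j : ℝ)) * (2 * max C 0 / ε) := by positivity
    have hεh : 0 ≤ ε / 2 * height x := by positivity
    rcases le_total (proximity F d S x) (height x) with h | h
    · rw [min_eq_left h] at h3
      linarith
    · rw [min_eq_right h] at h3
      have h4 : height x ≤ 2 * max C 0 / ε := by
        rw [le_div_iff₀ hε]
        linarith
      have h5 := prox_upper F d S hD.prime x hx.1 hx.2.2
      have h6 := mul_le_mul_of_nonneg_left h4 hdd
      linarith
  · have hd0 : (0 : ℝ) < d := by exact_mod_cast hd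
    obtain ⟨C, hC⟩ := h2 F d S hF0 hd hF hS V ε hε
    refine ⟨C, fun x hx => ?_⟩
    have h3 := hC x hx.1 hx.2.2
    have h5 := prox_upper (fun _ : Fin 1 => F) (fun _ => d) S hS x hx.1 hx.2.2
    rw [Fin.sum_univ_one] at h5
    have h6 : min (proximity (fun _ : Fin 1 => F) (fun _ => d) S x) (d * height x) =
        proximity (fun _ : Fin 1 => F) (fun _ => d) S x := min_eq_left h5
    have h7 : N * mV V u x + (d : ℝ)⁻¹ *
        min (proximity (fun _ : Fin 1 => F) (fun _ => d) S x) (d * height x) ≤
        ((N : ℝ) + 1 + ε) * height x + C := h3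
    rw [h6, inv_mul_eq_div] at h7
    exact h7

end Pool.Agent.Results.MP_17a322_nt.NormalCrossingsNearAdeles
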